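import Pool.Agent.ANR.Stmts2

/-! Row LMR of tank ANR: the fourth powers. -/

open scoped BigOperators

noncomputable section

namespace Pool.Agent.ANR.H52

theorem lmr : LmrStmt := by
  intro X _ _ G G' κ R x u m k hk hκ hu hΔ hm
  -- the fourth powers of the change
  have h2 : ∑ y ∈ R, k * ‖G x y - G' x y‖ ^ 2 ≤ m :=
    le_trans (Finset.sum_le_sum (fun y hy => mul_le_mul_of_nonneg_right (hκ y hy) (sq_nonneg _))) hm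
  have h3 : ∑ y ∈ R, ‖G x y - G' x y‖ ^ 2 ≤ m / k := by
    rw [← Finset.mul_sum] at h2
    rw [le_div_iff₀ hk, mul_comm]
    exact h2
  have h4 : ∑ y ∈ R, ‖G x y - G' x y‖ ^ 4 ≤ u ^ 2 * m / k := by
    calc ∑ y ∈ R, ‖G x y - G' x y‖ ^ 4 ≤ ∑ y ∈ R, u ^ 2 * ‖G x y - G' x y‖ ^ 2 := by
          apply Finset.sum_le_sum
          intro y hy
          have h5 : ‖G x y - G' x y‖ ^ 2 ≤ u ^ 2 :=
            pow_le_pow_left₀ (norm_nonneg _) (hΔ y hy) 2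
          calc ‖G x y - G' x y‖ ^ 4 = ‖G x y - G' x y‖ ^ 2 * ‖G x y - G' x y‖ ^ 2 := by ring
            _ ≤ u ^ 2 * ‖G x y - G' x y‖ ^ 2 := mul_le_mul_of_nonneg_right h5 (sq_nonneg _)
      _ = u ^ 2 * ∑ y ∈ R, ‖G x y - G' x y‖ ^ 2 := by rw [Finset.mul_sum]
      _ ≤ u ^ 2 * (m / k) := mul_le_mul_of_nonneg_left h3 (sq_nonneg _)
      _ = u ^ 2 * m / k := by ring
  have hmink := Real.Lp_add_le R (f := fun y => ‖G x y‖) (g := fun y => ‖G x y - G' x y‖)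
    (p := (4 : ℝ)) (by norm_num)
  have hpow : ∀ t : ℝ, 0 ≤ t → |t| ^ (4 : ℝ) = t ^ 4 := by
    intro t ht
    rw [abs_of_nonneg ht]
    exact_mod_cast Real.rpow_natCast t 4
  have e1 : ∑ y ∈ R, |‖G x y‖| ^ (4 : ℝ) = ∑ y ∈ R, ‖G x y‖ ^ 4 :=
    Finset.sum_congr rfl (fun y _ => hpow _ (norm_nonneg _))
  have e2 : ∑ y ∈ R, |‖G x y - G' x y‖| ^ (4 : ℝ) = ∑ y ∈ R, ‖G x y - G' x y‖ ^ 4 :=
    Finset.sum_congr rfl (fun y _ => hpow _ (norm_nonneg _))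
  have e3 : ∑ y ∈ R, |‖G x y‖ + ‖G x y - G' x y‖| ^ (4 : ℝ) =
      ∑ y ∈ R, (‖G x y‖ + ‖G x y - G' x y‖) ^ 4 :=
    Finset.sum_congr rfl (fun y _ => hpow _ (by positivity))
  rw [e1, e2, e3] at hmink
  have h6 : ∑ y ∈ R, ‖G' x y‖ ^ 4 ≤ ∑ y ∈ R, (‖G x y‖ + ‖G x y - G' x y‖) ^ 4 := by
    apply Finset.sum_le_sum
    intro y _
    apply pow_le_pow_left₀ (norm_nonneg _)
    calc ‖G' x y‖ = ‖G x y - (G x y - G' x y)‖ := by rw [sub_sub_cancel]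
      _ ≤ ‖G x y‖ + ‖G x y - G' x y‖ := norm_sub_le _ _
  calc (∑ y ∈ R, ‖G' x y‖ ^ 4) ^ ((1 : ℝ) / 4)
      ≤ (∑ y ∈ R, (‖G x y‖ + ‖G x y - G' x y‖) ^ 4) ^ ((1 : ℝ) / 4) :=
        Real.rpow_le_rpow (Finset.sum_nonneg (fun y _ => by positivity)) h6 (by norm_num)
    _ ≤ (∑ y ∈ R, ‖G x y‖ ^ 4) ^ ((1 : ℝ) / 4) +
          (∑ y ∈ R, ‖G x y - G' x y‖ ^ 4) ^ ((1 : ℝ) / 4) := hmink
    _ ≤ (∑ y ∈ R, ‖G x y‖ ^ 4) ^ ((1 : ℝ) / 4) + (u ^ 2 * m / k) ^ ((1 : ℝ) / 4) := by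
        gcongr

end Pool.Agent.ANR.H52
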